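import Mathlib
import Pool.Agent.H590.NL.Stm

/-!
# MP_85210c_gt in all dimensions: task GEN (helper764, for helper590)

Adapted from the planar file `Pool/Agent/H86/PL/GEN.lean` of helper86.
-/

set_option autoImplicit false

noncomputable section

open MeasureTheory Filter Topology Set
open scoped BigOperators ENNReal

namespace Pool.Agent.H764.NL

open H590NL

theorem alg {g0 g1 t y : ℝ} (hy : 0 < y) :
    (Real.exp (-(y * t)) * (g0 + (1 + y) * g1) - (g0 + g1) -
      y * Real.exp (-y) * (g1 - t * (g0 + g1))) / y ^ 2 =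
    (g0 + g1) * ((Real.exp (-(y * t)) - 1 + y * Real.exp (-y) * t) / y ^ 2) +
      g1 * ((Real.exp (-(y * t)) - Real.exp (-y)) / y) := by
  field_simp
  ring

theorem piece1 {n : ℕ} (h : H590PL.S_FR) {τ g : V n → ℝ} (hτ : Measurable τ) (hg : Measurable g)
    (hτ0 : ∀ x, 0 ≤ τ x) (hg0 : ∀ x, 0 ≤ g x) (i1 : Integrable g)
    (i2 : Integrable (fun x => g x * τ x)) (i3 : Integrable (fun x => g x * (τ x * Real.log (τ x)))) :
    Integrable (fun q : V n × ℝ => g q.1 *
      ((Real.exp (-(q.2 * τ q.1)) - 1 + q.2 * Real.exp (-q.2) * τ q.1) / q.2 ^ 2))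
      ((volume : Measure (V n)).prod (volume.restrict (Ioi (0 : ℝ)))) := by
  obtain ⟨hA, -, C, hC, hC1, -⟩ := h
  have hm : Measurable (fun q : V n × ℝ => g q.1 *
      ((Real.exp (-(q.2 * τ q.1)) - 1 + q.2 * Real.exp (-q.2) * τ q.1) / q.2 ^ 2)) := by
    fun_prop
  rw [integrable_prod_iff hm.aestronglyMeasurable]
  refine ⟨ae_of_all _ fun x => ?_, ?_⟩
  · exact ((hA (τ x) (hτ0 x)).1).const_mul (g x)
  · refine Integrable.mono' (g := fun x => C * (g x + g x * τ x +
      ‖g x * (τ x * Real.log (τ x))‖)) ?_ ?_ ?_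
    · exact ((i1.add i2).add i3.norm).const_mul C
    · exact hm.aestronglyMeasurable.norm.integral_prod_right'
    · refine ae_of_all _ fun x => ?_
      have h1 : ∫ y, ‖g x * ((Real.exp (-(y * τ x)) - 1 + y * Real.exp (-y) * τ x) / y ^ 2)‖
          ∂(volume.restrict (Ioi (0 : ℝ))) =
          g x * ∫ y in Ioi (0 : ℝ),
            |(Real.exp (-(y * τ x)) - 1 + y * Real.exp (-y) * τ x) / y ^ 2| := by
        rw [← integral_const_mul]
        refine integral_congr_ae (ae_of_all _ fun y => ?_)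
        simp only [norm_mul, Real.norm_eq_abs, abs_of_nonneg (hg0 x)]
      have h2 := mul_le_mul_of_nonneg_left (hC1 (τ x) (hτ0 x)) (hg0 x)
      rw [Real.norm_eq_abs, abs_of_nonneg (integral_nonneg fun y => norm_nonneg _)]
      simp only
      rw [h1]
      refine h2.trans (le_of_eq ?_)
      rw [Real.norm_eq_abs, abs_mul, abs_mul, abs_of_nonneg (hg0 x), abs_of_nonneg (hτ0 x)]
      ring

theorem piece2 {n : ℕ} (h : H590PL.S_FR) {τ g : V n → ℝ} (hτ : Measurable τ) (hg : Measurable g)
    (hτ0 : ∀ x, 0 ≤ τ x) (hg0 : ∀ x, 0 ≤ g x) (hz : ∀ x, τ x = 0 → g x = 0)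
    (i1 : Integrable (fun x => g x * Real.log (τ x))) :
    Integrable (fun q : V n × ℝ => g q.1 *
      ((Real.exp (-(q.2 * τ q.1)) - Real.exp (-q.2)) / q.2))
      ((volume : Measure (V n)).prod (volume.restrict (Ioi (0 : ℝ)))) := by
  obtain ⟨-, hB, C, hC, -, hC2⟩ := h
  have hm : Measurable (fun q : V n × ℝ => g q.1 *
      ((Real.exp (-(q.2 * τ q.1)) - Real.exp (-q.2)) / q.2)) := by
    fun_prop
  rw [integrable_prod_iff hm.aestronglyMeasurable]
  refine ⟨ae_of_all _ fun x => ?_, ?_⟩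
  · rcases (hτ0 x).eq_or_lt with h0 | h0
    · simp only [hz x h0.symm, zero_mul]
      exact integrable_zero _ _ _
    · exact ((hB (τ x) h0).1).const_mul (g x)
  · refine Integrable.mono' (g := fun x => ‖g x * Real.log (τ x)‖) i1.norm ?_ ?_
    · exact hm.aestronglyMeasurable.norm.integral_prod_right'
    · refine ae_of_all _ fun x => ?_
      rw [Real.norm_eq_abs, abs_of_nonneg (integral_nonneg fun y => norm_nonneg _)]
      simp only
      rcases (hτ0 x).eq_or_lt with h0 | h0
      · simp only [hz x h0.symm, zero_mul, norm_zero, integral_zero, le_refl]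
      · have h1 : ∫ y, ‖g x * ((Real.exp (-(y * τ x)) - Real.exp (-y)) / y)‖
            ∂(volume.restrict (Ioi (0 : ℝ))) =
            g x * ∫ y in Ioi (0 : ℝ), |(Real.exp (-(y * τ x)) - Real.exp (-y)) / y| := by
          rw [← integral_const_mul]
          refine integral_congr_ae (ae_of_all _ fun y => ?_)
          simp only [norm_mul, Real.norm_eq_abs, abs_of_nonneg (hg0 x)]
        rw [h1]
        refine (mul_le_mul_of_nonneg_left (hC2 (τ x) h0) (hg0 x)).trans (le_of_eq ?_)
        rw [Real.norm_eq_abs, abs_mul, abs_of_nonneg (hg0 x)]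

theorem GEN (h : H590PL.S_FR) : S_GEN := by
  intro n τ g0 g1 hτ hg0 hg1 τ0 g00 g10 hz i0 i1 i2 i3 i4 i5
  have ig : Integrable (fun x => g0 x + g1 x) := i0.add i1
  have igτ : Integrable (fun x => (g0 x + g1 x) * τ x) := by
    have h1 := i2.add i3
    refine h1.congr (ae_of_all _ fun x => ?_)
    simp only [Pi.add_apply]
    ring
  have p1 := piece1 h hτ (hg0.add hg1) τ0 (fun x => add_nonneg (g00 x) (g10 x)) ig igτ i4
  have p2 := piece2 h hτ hg1 τ0 g10 hz i5
  have p : Integrable (Function.uncurry fun (x : V n) (y : ℝ) =>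
      ((g0 x + g1 x) * ((Real.exp (-(y * τ x)) - 1 + y * Real.exp (-y) * τ x) / y ^ 2) +
        g1 x * ((Real.exp (-(y * τ x)) - Real.exp (-y)) / y)))
      ((volume : Measure (V n)).prod (volume.restrict (Ioi (0 : ℝ)))) := by
    refine (p1.add p2).congr (ae_of_all _ ?_)
    rintro ⟨x, y⟩
    rfl
  have hpt : ∀ y ∈ Ioi (0 : ℝ),
      ∫ x, ((g0 x + g1 x) * ((Real.exp (-(y * τ x)) - 1 + y * Real.exp (-y) * τ x) / y ^ 2) +
        g1 x * ((Real.exp (-(y * τ x)) - Real.exp (-y)) / y)) =
      ((∫ x, Real.exp (-(y * τ x)) * (g0 x + (1 + y) * g1 x)) - (∫ x, (g0 x + g1 x))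
        - y * Real.exp (-y) * ∫ x, (g1 x - τ x * (g0 x + g1 x))) / y ^ 2 := by
    intro y hy
    have hy0 : (0 : ℝ) < y := hy
    have e1 : Integrable (fun x => Real.exp (-(y * τ x)) * (g0 x + (1 + y) * g1 x)) := by
      refine Integrable.mono' (g := fun x => g0 x + (1 + y) * g1 x) (i0.add (i1.const_mul _)) ?_ ?_
      · exact (by fun_prop : Measurable (fun x => Real.exp (-(y * τ x)) *
          (g0 x + (1 + y) * g1 x))).aestronglyMeasurable
      · refine ae_of_all _ fun x => ?_
        have h1 : 0 ≤ g0 x + (1 + y) * g1 x :=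
          add_nonneg (g00 x) (mul_nonneg (by linarith) (g10 x))
        have h2 : Real.exp (-(y * τ x)) ≤ 1 := by
          rw [Real.exp_le_one_iff]
          have := mul_nonneg hy0.le (τ0 x)
          linarith
        rw [Real.norm_eq_abs, abs_of_nonneg (mul_nonneg (Real.exp_pos _).le h1)]
        have := mul_le_mul_of_nonneg_right h2 h1
        linarith
    have e2 : Integrable (fun x => g1 x - τ x * (g0 x + g1 x)) := by
      refine i1.sub (igτ.congr (ae_of_all _ fun x => ?_))
      simp only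
      ring
    have e3 : ∫ x, (Real.exp (-(y * τ x)) * (g0 x + (1 + y) * g1 x) - (g0 x + g1 x) -
        y * Real.exp (-y) * (g1 x - τ x * (g0 x + g1 x))) =
        (∫ x, Real.exp (-(y * τ x)) * (g0 x + (1 + y) * g1 x)) - (∫ x, (g0 x + g1 x))
        - y * Real.exp (-y) * ∫ x, (g1 x - τ x * (g0 x + g1 x)) := by
      have e4 : Integrable (fun x => Real.exp (-(y * τ x)) * (g0 x + (1 + y) * g1 x) -
        (g0 x + g1 x)) := e1.sub ig
      rw [integral_sub e4 (e2.const_mul _), integral_sub e1 ig, integral_const_mul]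
    rw [← e3, ← integral_div]
    refine integral_congr_ae (ae_of_all _ fun x => ?_)
    simp only
    exact (alg hy0).symm
  have hx : ∀ x, ∫ y in Ioi (0 : ℝ),
      ((g0 x + g1 x) * ((Real.exp (-(y * τ x)) - 1 + y * Real.exp (-y) * τ x) / y ^ 2) +
        g1 x * ((Real.exp (-(y * τ x)) - Real.exp (-y)) / y)) =
      (g0 x + g1 x) * (τ x * Real.log (τ x) - τ x) - g1 x * Real.log (τ x) := by
    intro x
    obtain ⟨hA, hB, -⟩ := h
    obtain ⟨a1, a2⟩ := hA (τ x) (τ0 x)
    have b1 : Integrable (fun y : ℝ => g1 x * ((Real.exp (-(y * τ x)) - Real.exp (-y)) / y))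
        (volume.restrict (Ioi (0 : ℝ))) := by
      rcases (τ0 x).eq_or_lt with h0 | h0
      · simp only [hz x h0.symm, zero_mul]
        exact integrable_zero _ _ _
      · exact ((hB (τ x) h0).1).const_mul (g1 x)
    have b2 : ∫ y in Ioi (0 : ℝ), g1 x * ((Real.exp (-(y * τ x)) - Real.exp (-y)) / y) =
        - (g1 x * Real.log (τ x)) := by
      rcases (τ0 x).eq_or_lt with h0 | h0
      · simp only [hz x h0.symm, zero_mul, integral_zero, neg_zero]
      · rw [integral_const_mul, (hB (τ x) h0).2]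
        ring
    rw [integral_add (a1.const_mul (g0 x + g1 x)) b1, integral_const_mul, a2, b2]
    ring
  have hint : IntegrableOn (fun y : ℝ => ∫ x,
      ((g0 x + g1 x) * ((Real.exp (-(y * τ x)) - 1 + y * Real.exp (-y) * τ x) / y ^ 2) +
        g1 x * ((Real.exp (-(y * τ x)) - Real.exp (-y)) / y))) (Ioi 0) :=
    p.integral_prod_right
  refine ⟨hint.congr_fun hpt measurableSet_Ioi, ?_⟩
  rw [← setIntegral_congr_fun measurableSet_Ioi hpt]
  have hsw := integral_integral_swap (f := fun (x : V n) (y : ℝ) =>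
      ((g0 x + g1 x) * ((Real.exp (-(y * τ x)) - 1 + y * Real.exp (-y) * τ x) / y ^ 2) +
        g1 x * ((Real.exp (-(y * τ x)) - Real.exp (-y)) / y)))
      (μ := (volume : Measure (V n))) (ν := volume.restrict (Ioi (0 : ℝ))) p
  rw [← hsw]
  exact integral_congr_ae (ae_of_all _ fun x => hx x)

end Pool.Agent.H764.NL
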